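import Mathlib
import Pool.Agent.V11260.PT.Defs
import Pool.Agent.W564.SC.Defs

/-!
# Periodic compact sets on which the return map is a torus extension of a product `f × h`
-/

set_option autoImplicit false

open scoped Manifold ContDiff Topology
open Filter Set

universe u

namespace Pool.Agent.V11260.PE

open Pool.Agent.H718R2.G Pool.Agent.V11260.PT Pool.Agent.W564.SC

/-- The torus `(ℝ / ℤ)^k`. -/
abbrev Tor (k : ℕ) : Type := Fin k → UnitAddCircle

/-- The point of the torus `(ℝ / ℤ)^k` represented by `v ∈ ℝ^k`. -/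
def pt {k : ℕ} (v : Fin k → ℝ) : Tor k := fun i => (v i : UnitAddCircle)

/-- `Θ` is an embedding of `X × Y × (ℝ / ℤ)^k` onto a subset `C` of `N`, such that every constant vector
field `v` of the torus directions becomes the restriction to `C` of a smooth vector field on a
neighbourhood of `C`, with a complete flow. The set `C` has the period `p ≥ 1` under `F` (`F^i(C)` does not
meet `C` for `1 ≤ i < p`), and the return map `F^p` of `C` is `(x, y, u) ↦ (f x, h y, u + φ (x, y))`. -/
structure IsExt (n : ℕ) (N : Type u) [TopologicalSpace N] [ChartedSpace (V n) N] (F : N → N)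
    {X Y : Type u} [TopologicalSpace X] [TopologicalSpace Y] (f : X → X) (h : Y → Y) {k : ℕ}
    (φ : X × Y → Tor k) (Θ : (X × Y) × Tor k → N) (p : ℕ) : Prop where
  emb : Topology.IsEmbedding Θ
  flow : ∀ v : Fin k → ℝ, ∃ (O : Set N) (ψ : ℝ → N → N), IsFlow n N O ψ ∧ range Θ ⊆ O ∧
    ∀ (t : ℝ) (q : X × Y) (u : Tor k), ψ t (Θ (q, u)) = Θ (q, u + pt (t • v))
  pos : 1 ≤ p
  ret : ∀ x y u, F^[p] (Θ ((x, y), u)) = Θ ((f x, h y), u + φ (x, y))
  dis : ∀ i, 1 ≤ i → i < p → ∀ q q', F^[i] (Θ q) ≠ Θ q'

/-- `z = Θ(x, y, u)` lies on such a set `C`, where `f` is an arbitrary homeomorphism of the compact metric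
space `X`, `x` is a nonwandering point of `f`, and `h` is a chain mixing homeomorphism of the compact
metric space `Y` (not a point) with the periodic shadowing property. -/
def OnExt (n : ℕ) (N : Type u) [TopologicalSpace N] [ChartedSpace (V n) N] (F : N → N)
    (z : N) : Prop :=
  ∃ (X Y : Type u) (_ : MetricSpace X) (_ : CompactSpace X) (_ : MetricSpace Y) (_ : CompactSpace Y)
    (_ : Nontrivial Y) (f : X ≃ₜ X) (h : Y ≃ₜ Y) (k : ℕ) (φ : X × Y → Tor k)
    (Θ : (X × Y) × Tor k → N) (p : ℕ) (x : X) (y : Y) (u : Tor k),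
    PerShadow h ∧ ChainMix h ∧ NonWand f x ∧ IsExt n N F f h φ Θ p ∧ Θ ((x, y), u) = z

end Pool.Agent.V11260.PE
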