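import Mathlib
import Pool.Agent.V11260.PE.Defs
import Pool.Agent.V11260.PR.Fam

/-!
# The family of the translations along the torus directions
-/

set_option autoImplicit false
set_option linter.unusedSectionVars false

open scoped Manifold ContDiff Topology NNReal
open Filter Set Metric

universe u

namespace Pool.Agent.V11260.PE

open Pool.Agent.H718R2.G Pool.Agent.W564.SC Pool.Agent.V11260.PT Pool.Agent.V11260.PR

lemma pt_zero {k : ℕ} : pt (0 : Fin k → ℝ) = 0 := by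
  funext i
  simp [pt]

lemma pt_add {k : ℕ} (v w : Fin k → ℝ) : pt (v + w) = pt v + pt w := by
  funext i
  simp [pt]

/-- real representatives of the solution of `S + m s = 0` -/
lemma solve {k : ℕ} (S : Tor k) {m : ℕ} (hm : 1 ≤ m) :
    ∃ s : Fin k → ℝ, ‖s‖ ≤ 1 / (2 * m) ∧ S + m • pt s = 0 := by
  have hm0 : (0 : ℝ) < m := by exact_mod_cast hm
  have h1 : ∀ i, ∃ v : ℝ, |v| ≤ 1 / 2 ∧ ((v : ℝ) : UnitAddCircle) = -S i := by
    intro i
    obtain ⟨r, hr⟩ := QuotientAddGroup.mk_surjective (-S i)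
    refine ⟨r - round r, abs_sub_round r, ?_⟩
    rw [← hr]
    have h2 : ((round r : ℝ) : UnitAddCircle) = 0 := by
      rw [AddCircle.coe_eq_zero_iff]
      exact ⟨round r, by simp⟩
    rw [AddCircle.coe_sub, h2, sub_zero]
  choose v hv1 hv2 using h1
  refine ⟨fun i => v i / m, ?_, ?_⟩
  · rw [pi_norm_le_iff_of_nonneg (by positivity)]
    intro i
    rw [Real.norm_eq_abs, abs_div, abs_of_pos hm0, div_le_div_iff₀ hm0 (by positivity)]
    have := hv1 i
    nlinarith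
  · funext i
    have h3 : m • (((v i / m : ℝ)) : UnitAddCircle) = ((v i : ℝ) : UnitAddCircle) := by
      rw [← AddCircle.coe_nsmul, nsmul_eq_mul, mul_div_cancel₀ _ hm0.ne']
    show S i + m • (((v i / m : ℝ)) : UnitAddCircle) = 0
    rw [h3, hv2, add_neg_cancel]

variable {n : ℕ} {N : Type u} [TopologicalSpace N] [T2Space N] [CompactSpace N]
  [ChartedSpace (V n) N] [IsManifold (𝓡 n) ∞ N] {r : ℕ∞}

/-- one direction -/
theorem one_fam {F : N → N} {X Y : Type u} [TopologicalSpace X] [TopologicalSpace Y] [CompactSpace X]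
    [CompactSpace Y] {f : X → X}
    {h : Y → Y} {k : ℕ} {φ : X × Y → Tor k} {Θ : (X × Y) × Tor k → N} {p : ℕ}
    (hC : IsExt n N F f h φ Θ p) {D : Set N} (hD : IsClosed D) (hdis : Disjoint D (range Θ)) (r : ℕ∞)
    (v : Fin k → ℝ) :
    ∃ (T : ℝ → DiffM n N r) (ε : ℝ), 0 < ε ∧ T 0 = Diffeomorph.refl (𝓡 n) N r ∧ IsFam n N r T ∧
      ∀ t, |t| < ε → (∀ q u, T t (Θ (q, u)) = Θ (q, u + pt (t • v))) ∧ ∀ w ∈ D, T t w = w := by
  obtain ⟨O, ψ, hψ, hCO, hψC⟩ := hC.flow v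
  have hCc : IsCompact (range Θ) := isCompact_range hC.emb.continuous
  obtain ⟨O₁, hO₁, hCO₁, hO₁O, hO₁c⟩ := exists_open_between_and_isCompact_closure hCc
    hψ.isOpen hCO
  have hD' : IsClosed (D ∪ O₁ᶜ) := hD.union hO₁.isClosed_compl
  have hdisj : Disjoint (D ∪ O₁ᶜ) (range Θ) := by
    rw [Set.disjoint_union_left]
    exact ⟨hdis, Set.disjoint_left.2 fun w hw hwC => hw (hCO₁ hwC)⟩
  obtain ⟨f, hf0, hf1, -⟩ := exists_contMDiffMap_zero_one_of_isClosed (n := ⊤) (𝓡 n) hD'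
    hCc.isClosed hdisj
  have hfs : ContMDiff (𝓡 n) 𝓘(ℝ, ℝ) ∞ (f : N → ℝ) := f.contMDiff
  have hf0' : ∀ w ∈ O, w ∉ closure O₁ → f w = 0 := by
    intro w _ hwK
    exact hf0 (Or.inr fun h1 => hwK (subset_closure h1))
  have hfC : ∀ q, f (Θ q) = 1 := fun q => hf1 (mem_range_self q)
  have hfD : ∀ w ∈ D, f w = 0 := fun w hw => hf0 (Or.inl hw)
  obtain ⟨T, ε₁, hε₁, hT0, hTf, hT⟩ := rho_flow hψ hfs hO₁c hO₁O hf0' r
  refine ⟨T, ε₁, hε₁, hT0, hTf, fun t ht => ⟨fun q u => ?_, fun w hw => ?_⟩⟩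
  · rw [(hT t ht).1 _ (hCO (mem_range_self _)), hfC, one_mul, hψC]
  · by_cases hyO : w ∈ O
    · rw [(hT t ht).1 w hyO, hfD w hw, zero_mul, hψ.zero w hyO]
    · exact (hT t ht).2 w hyO

/-- all directions -/
theorem trans_fam {F : N → N} {X Y : Type u} [TopologicalSpace X] [TopologicalSpace Y] [CompactSpace X]
    [CompactSpace Y] {f : X → X}
    {h : Y → Y} {k : ℕ} {φ : X × Y → Tor k} {Θ : (X × Y) × Tor k → N} {p : ℕ}
    (hC : IsExt n N F f h φ Θ p) {D : Set N} (hD : IsClosed D) (hdis : Disjoint D (range Θ)) (r : ℕ∞) :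
    ∃ (K : (Fin k → ℝ) → DiffM n N r) (ε : ℝ), 0 < ε ∧ K 0 = Diffeomorph.refl (𝓡 n) N r ∧
      IsFam n N r K ∧ ∀ s, ‖s‖ < ε → (∀ q u, K s (Θ (q, u)) = Θ (q, u + pt s)) ∧
      ∀ w ∈ D, K s w = w := by
  classical
  choose T ε hε hT0 hTf hT using fun i : Fin k => one_fam hC hD hdis r (Pi.single i 1)
  obtain ⟨ε₀, hε₀, hε₀'⟩ : ∃ ε₀ : ℝ, 0 < ε₀ ∧ ∀ i, ε₀ ≤ ε i := by
    rcases isEmpty_or_nonempty (Fin k) with hk | hk
    · exact ⟨1, one_pos, fun i => hk.elim i⟩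
    · obtain ⟨i₀, hi₀⟩ := Finite.exists_min ε
      exact ⟨ε i₀, hε i₀, hi₀⟩
  have key : ∀ S : Finset (Fin k), ∃ K : (Fin k → ℝ) → DiffM n N r,
      K 0 = Diffeomorph.refl (𝓡 n) N r ∧ IsFam n N r K ∧ ∀ s, ‖s‖ < ε₀ →
      (∀ q u, K s (Θ (q, u)) = Θ (q, u + pt (∑ i ∈ S, Pi.single i (s i)))) ∧ ∀ w ∈ D, K s w = w := by
    intro S
    induction S using Finset.induction_on with
    | empty =>
      refine ⟨fun _ => Diffeomorph.refl (𝓡 n) N r, rfl, fam_const _, fun s _ => ⟨fun q u => ?_, fun w _ => rfl⟩⟩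
      rw [Finset.sum_empty, pt_zero, add_zero]
      rfl
    | insert a S ha ih =>
      obtain ⟨K, hK0, hKf, hK⟩ := ih
      refine ⟨fun s => (T a (s a)).trans (K s), ?_, ?_, fun s hs => ?_⟩
      · show (T a (0 : ℝ)).trans (K 0) = _
        rw [hT0, hK0]
        ext y
        rfl
      · exact fam_trans (fam_linear (hTf a) (ContinuousLinearMap.proj (R := ℝ) (φ := fun _ : Fin k => ℝ) a)) hKf
      · have hsa : |s a| < ε a := by
          have h1 : ‖s a‖ ≤ ‖s‖ := norm_le_pi_norm s a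
          rw [Real.norm_eq_abs] at h1
          exact lt_of_le_of_lt h1 (hs.trans_le (hε₀' a))
        refine ⟨fun q u => ?_, fun w hw => ?_⟩
        · show K s (T a (s a) (Θ (q, u))) = _
          rw [(hT a (s a) hsa).1, (hK s hs).1, Finset.sum_insert ha, pt_add, add_assoc]
          congr 4
          rw [← Pi.single_smul, smul_eq_mul, mul_one]
        · show K s (T a (s a) w) = _
          rw [(hT a (s a) hsa).2 w hw, (hK s hs).2 w hw]
  obtain ⟨K, hK0, hKf, hK⟩ := key Finset.univ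
  refine ⟨K, ε₀, hε₀, hK0, hKf, fun s hs => ⟨fun q u => ?_, (hK s hs).2⟩⟩
  rw [(hK s hs).1, Finset.univ_sum_single]

end Pool.Agent.V11260.PE
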