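import Mathlib
import Pool.Agent.V11260.PE.Fam
import Pool.Agent.W564.SC.LibA
import Pool.Agent.TH382.HS.Limit

/-!
# The closing lemma for torus extensions of products with a mixing map
-/

set_option autoImplicit false
set_option linter.unusedSectionVars false

open scoped Manifold ContDiff Topology NNReal
open Filter Set Metric

universe u

namespace Pool.Agent.V11260.PE

open Pool.Agent.H718R2.G Pool.Agent.W564.SC Pool.Agent.TH382.QC Pool.Agent.TH80.CLX Pool.Agent.TH382.HS
  Pool.Agent.V11260.PT Pool.Agent.V11260.PR Pool.Agent.W216.SC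

variable {n : ℕ} {N : Type u} [TopologicalSpace N] [T2Space N] [CompactSpace N]
  [ChartedSpace (V n) N] [IsManifold (𝓡 n) ∞ N] {r : ℕ∞}

/-- the closing lemma on torus extensions -/
theorem closable_ext (hr : 1 ≤ r) (F : DiffM n N r) (z : N) (h : OnExt n N F z) :
    ClosableAt n N r F z := by
  classical
  obtain ⟨X, Y, _, _, _, _, _, f, g, k, φ, Θ, P, x, y, u, hps, hcm, hx, hC, hz⟩ := h
  intro U hU hFU
  have hFc : ∀ i : ℕ, Continuous (F^[i]) := fun i => F.continuous.iterate i
  have hCc : IsCompact (range Θ) := isCompact_range hC.emb.continuous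
  -- the other images of `C`
  obtain ⟨D, hDd⟩ : ∃ D : Set N, D = ⋃ i ∈ Finset.Ico 1 P, F^[i] '' (range Θ) := ⟨_, rfl⟩
  have hD : IsClosed D := by
    rw [hDd]
    exact isClosed_biUnion_finset fun i _ => (hCc.image (hFc i)).isClosed
  have hDmem : ∀ i, 1 ≤ i → i < P → ∀ q, F^[i] (Θ q) ∈ D := by
    intro i h1 h2 q
    rw [hDd]
    simp only [mem_iUnion, Finset.mem_Ico]
    exact ⟨i, ⟨h1, h2⟩, _, mem_range_self q, rfl⟩
  have hdis : Disjoint D (range Θ) := by
    rw [Set.disjoint_left]
    intro w hw1 hw2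
    rw [hDd] at hw1
    simp only [mem_iUnion, Finset.mem_Ico] at hw1
    obtain ⟨i, ⟨hi1, hi2⟩, _, ⟨q, rfl⟩, rfl⟩ := hw1
    obtain ⟨q', hq'⟩ := hw2
    exact hC.dis i hi1 hi2 q q' hq'.symm
  obtain ⟨K, ε₁, hε₁, hK0, hKf, hK⟩ := trans_fam hC hD hdis r
  let H : (Fin k → ℝ) → DiffM n N r := fun s => (K s).trans F
  have hHf : IsFam n N r H := fam_trans hKf (fam_const F)
  have hH0 : H 0 = F := by
    show (K 0).trans F = F
    rw [hK0]
    ext w
    rfl
  obtain ⟨χ, hχ⟩ := Pool.Agent.W699.SC.gc n N z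
  obtain ⟨kk, hk, κ, hκ, hcl⟩ := t_CL n N r hr (Fin k → ℝ) H hHf χ z hχ U hU (by rw [hH0]; exact hFU)
  -- no points of `D` near `z`
  obtain ⟨r0, hr0, hr0D⟩ : ∃ r0 : ℝ, 0 < r0 ∧ ∀ w ∈ χ.source, ‖χ w‖ < 3 * r0 → w ∉ D := by
    have h5 : ContinuousAt χ.symm (0 : V n) := by
      apply χ.continuousAt_symm
      exact hχ.ball (mem_closedBall_self (by norm_num))
    have hz0 : χ.symm (0 : V n) = z := by
      rw [← hχ.zero]
      exact χ.left_inv hχ.src
    have hc : Tendsto χ.symm (𝓝 (0 : V n)) (𝓝 z) := by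
      have := h5.tendsto
      rwa [hz0] at this
    have hev2 : ∀ᶠ w in 𝓝 z, w ∉ D :=
      hD.isOpen_compl.mem_nhds (Set.disjoint_right.1 hdis ⟨_, hz⟩)
    have hev := hc.eventually hev2
    rw [Metric.eventually_nhds_iff] at hev
    obtain ⟨ε, hε, hε2⟩ := hev
    refine ⟨ε / 3, by linarith, fun w hw hw2 => ?_⟩
    have h6 := hε2 (y := χ w) (by rw [dist_zero_right]; linarith)
    rwa [χ.left_inv hw] at h6
  obtain ⟨η, hη, hball⟩ := good_ball (X := X × Y) (Y := Tor k) hC.emb hχ hz
    (lt_min hκ (lt_min (half_pos one_pos) hr0) : (0 : ℝ) < min κ (min (1 / 2) r0))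
  obtain ⟨ρ0, R, hρ0, hflex⟩ := Pool.Agent.W816.SC.flex Y g hps hcm y η hη
  have hmem : ∀ (x' : X) (y' : Y), dist x' x ≤ η → dist y' y ≤ η → Θ ((x', y'), u) ∈ χ.source ∧
      ‖χ (Θ ((x', y'), u))‖ < min κ (min (1 / 2) r0) := by
    intro x' y' h1 h2
    apply hball
    rw [Prod.dist_eq, Prod.dist_eq, dist_self]
    exact max_le (max_le h1 h2) hη.le
  have hκ' : ∀ t : ℝ, t < min κ (min (1 / 2) r0) → t < κ ∧ t < 1 / 2 ∧ t < r0 := by
    intro t ht
    exact ⟨ht.trans_le (min_le_left _ _), ht.trans_le ((min_le_right _ _).trans (min_le_left _ _)),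
      ht.trans_le ((min_le_right _ _).trans (min_le_right _ _))⟩
  -- the orbits of the members of the family
  have hHD : ∀ s : Fin k → ℝ, ‖s‖ < ε₁ → ∀ w ∈ D, H s w = F w := by
    intro s hs w hw
    show F (K s w) = F w
    rw [(hK s hs).2 w hw]
  have hHi : ∀ s : Fin k → ℝ, ‖s‖ < ε₁ → ∀ (q : X × Y) (v : Tor k), ∀ j : ℕ, 1 ≤ j → j ≤ P →
      (H s)^[j] (Θ (q, v)) = F^[j] (Θ (q, v + pt s)) := by
    intro s hs q v j hj1
    induction j with
    | zero => omega
    | succ j ih =>
      intro hjP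
      rcases Nat.eq_zero_or_pos j with h0 | h0
      · subst h0
        show F (K s (Θ (q, v))) = F (Θ (q, v + pt s))
        rw [(hK s hs).1]
      · rw [Function.iterate_succ_apply', ih h0 (by omega), Function.iterate_succ_apply' F,
          hHD s hs _ (hDmem j h0 (by omega) _)]
  have horb : ∀ s : Fin k → ℝ, ‖s‖ < ε₁ → ∀ (x' : X) (y' : Y) (v : Tor k) (m : ℕ),
      (H s)^[P * m] (Θ ((x', y'), v)) = Θ ((f^[m] x', g^[m] y'),
        v + (∑ j ∈ Finset.range m, φ (f^[j] x', g^[j] y') + m • pt s)) := by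
    intro s hs x' y' v m
    induction m with
    | zero =>
      show Θ ((x', y'), v) = _
      rw [Finset.sum_range_zero, zero_smul, add_zero, add_zero]
      rfl
    | succ m ih =>
      rw [Nat.mul_succ, add_comm, Function.iterate_add_apply, ih, hHi s hs _ _ P hC.pos le_rfl,
        hC.ret, Function.iterate_succ_apply' f, Function.iterate_succ_apply' g,
        Finset.sum_range_succ, succ_nsmul]
      congr 2
      abel
  -- the size of the translation
  obtain ⟨M1, hM1⟩ := exists_nat_gt (1 / min κ ε₁)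
  have hmin : 0 < min κ ε₁ := lt_min hκ hε₁
  have hsize : ∀ m : ℕ, 1 ≤ m → M1 ≤ m → 1 / (2 * (m : ℝ)) < min κ ε₁ := by
    intro m hm1 hm
    have hm0 : (0 : ℝ) < m := by exact_mod_cast hm1
    have h1 : (M1 : ℝ) ≤ m := by exact_mod_cast hm
    have h2 : 1 / min κ ε₁ < m := hM1.trans_le h1
    rw [div_lt_iff₀ hmin] at h2
    rw [div_lt_iff₀ (by positivity)]
    nlinarith
  by_cases hper : ∃ b : ℕ, 1 ≤ b ∧ f^[b] x = x
  · -- periodic
    obtain ⟨b, hb, hbx⟩ := hper
    set m := b * (2 * R + M1 + 1) with hm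
    have hm1 : 1 ≤ m := Nat.mul_pos hb (by omega)
    have hm3 : 1 * (2 * R + M1 + 1) ≤ b * (2 * R + M1 + 1) := Nat.mul_le_mul_right _ hb
    have hm2 : 2 * R ≤ m := by omega
    have hm4 : M1 ≤ m := by omega
    obtain ⟨y1, hy1, hy1', _⟩ := hflex m hm2
    have hxm : f^[m] x = x := by
      have h4 : Function.IsPeriodicPt f b x := hbx
      exact h4.mul_const (2 * R + M1 + 1)
    obtain ⟨s, hs, hsS⟩ := solve (∑ j ∈ Finset.range m, φ (f^[j] x, g^[j] y1)) hm1
    have hs2 := hs.trans_lt (hsize m hm1 hm4)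
    have hsκ : ‖s‖ < κ := hs2.trans_le (min_le_left _ _)
    have hsε : ‖s‖ < ε₁ := hs2.trans_le (min_le_right _ _)
    set z1 := Θ ((x, y1), u) with hz1
    have hz1m : (H s)^[P * m] z1 = z1 := by
      rw [hz1, horb s hsε, hsS, hxm, hy1', add_zero]
    obtain ⟨hsr, hn⟩ := hmem x y1 (by rw [dist_self]; exact hη.le) hy1.le
    have hPm : 0 < P * m := Nat.mul_pos hC.pos hm1
    have hp : z1 ∈ Function.periodicPts (H s) := Function.mk_mem_periodicPts (n := P * m) hPm hz1m
    have hmp := Function.minimalPeriod_pos_of_mem_periodicPts hp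
    set mp := Function.minimalPeriod (H s) z1 with hmpdef
    obtain ⟨c, hc, hcm'⟩ := exists_pos_le (Finset.Ico 1 mp)
      (fun i => if (H s)^[i] z1 ∈ χ.source then ‖χ ((H s)^[i] z1) - χ z1‖ else 1) (by
      intro i hi
      rw [Finset.mem_Ico] at hi
      split_ifs with hsrc
      · apply norm_pos_iff.2
        rw [sub_ne_zero]
        intro h5
        have h6 := χ.injOn hsrc hsr h5
        exact Function.not_isPeriodicPt_of_pos_of_lt_minimalPeriod (by omega) hi.2 h6
      · exact one_pos)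
    refine hcl s z1 (min (c / 2) (κ / 2)) mp hsκ hsr
      (hκ' _ hn).1 (lt_min (half_pos hc) (half_pos hκ))
      ((min_le_right _ _).trans_lt (half_lt_self hκ)) hmp ?_ ?_ ?_
    · rw [hmpdef, Function.iterate_minimalPeriod]
      exact hsr
    · rw [hmpdef, Function.iterate_minimalPeriod, sub_self, norm_zero]
      have : 0 < min (c / 2) (κ / 2) := lt_min (half_pos hc) (half_pos hκ)
      positivity
    · intro i hi0 hi1 hsrc
      have h5 := hcm' i (by rw [Finset.mem_Ico]; omega)
      rw [if_pos hsrc] at h5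
      have h6 : min (c / 2) (κ / 2) ≤ c / 2 := min_le_left _ _
      linarith
  · -- not periodic
    push Not at hper
    have hsymm : ∀ i : ℕ, 1 ≤ i → f.symm^[i] x ≠ x := by
      intro i hi h5
      apply hper i hi
      have h6 : f^[i] (f.symm^[i] x) = x := (f.toEquiv.right_inv.iterate i) x
      conv_lhs => rw [← h5]
      exact h6
    obtain ⟨c1, hc1, hc1m⟩ := exists_pos_le (Finset.Ico 1 R) (fun i => dist (f^[i] x) x) (by
      intro i hi
      rw [Finset.mem_Ico] at hi
      exact dist_pos.2 (hper i hi.1))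
    obtain ⟨c2, hc2, hc2m⟩ := exists_pos_le (Finset.Ico 1 R) (fun i => dist (f.symm^[i] x) x) (by
      intro i hi
      rw [Finset.mem_Ico] at hi
      exact dist_pos.2 (hsymm i hi.1))
    set c := min c1 c2 with hc
    have hc0 : 0 < c := lt_min hc1 hc2
    have hc4 : 0 < c / 4 := by linarith
    have hev : ∀ᶠ x' in 𝓝 x, ∀ i ∈ Finset.Ico 1 R, dist (f^[i] x') (f^[i] x) < c / 4 ∧
        dist (f.symm^[i] x') (f.symm^[i] x) < c / 4 := by
      rw [Finset.eventually_all]
      intro i _
      have h5 : ContinuousAt (f^[i]) x := (f.continuous.iterate i).continuousAt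
      have h6 : ContinuousAt (f.symm^[i]) x := (f.symm.continuous.iterate i).continuousAt
      exact (h5.eventually_mem (Metric.ball_mem_nhds _ hc4)).and
        (h6.eventually_mem (Metric.ball_mem_nhds _ hc4))
    obtain ⟨ε0, hε0, hε0'⟩ := Metric.eventually_nhds_iff.1 hev
    set d0 := min (c / 2) ρ0 with hd0
    have hd0' : 0 < d0 := lt_min (half_pos hc0) hρ0
    obtain ⟨ρ1, hρ1, hsep⟩ := sep (X := X × Y) (Y := Tor k) hC.emb hχ hd0'
    set ρ := min (ρ1 / 2) (min (κ / 2) r0) with hρ
    have hρ' : 0 < ρ := lt_min (half_pos hρ1) (lt_min (half_pos hκ) hr0)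
    have hρκ : ρ < κ := ((min_le_right _ _).trans (min_le_left _ _)).trans_lt (half_lt_self hκ)
    have hρr : ρ ≤ r0 := (min_le_right _ _).trans (min_le_right _ _)
    -- uniform continuity
    have hBc : IsCompact (closedBall (((x, y), u) : (X × Y) × Tor k) η) :=
      Metric.isClosed_closedBall.isCompact
    have hco : ContinuousOn (fun p : (X × Y) × Tor k => χ (Θ p)) (closedBall (((x, y), u) : (X × Y) × Tor k) η) := by
      apply χ.continuousOn.comp hC.emb.continuous.continuousOn
      intro p hp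
      exact (hball p hp).1
    have huc := hBc.uniformContinuousOn_of_continuous hco
    rw [Metric.uniformContinuousOn_iff] at huc
    have hκρ : 0 < κ * ρ ^ kk := by positivity
    obtain ⟨δ3, hδ3, huc'⟩ := huc (κ * ρ ^ kk) hκρ
    set ε := min (min η ε0) (min (c / 4) (δ3 / 2)) with hε
    have hεpos : 0 < ε := lt_min (lt_min hη hε0) (lt_min hc4 (half_pos hδ3))
    have hεη : ε ≤ η := (min_le_left _ _).trans (min_le_left _ _)
    have hεε0 : ε ≤ ε0 := (min_le_left _ _).trans (min_le_right _ _)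
    have hεc : ε ≤ c / 4 := (min_le_right _ _).trans (min_le_left _ _)
    have hεδ : ε ≤ δ3 / 2 := (min_le_right _ _).trans (min_le_right _ _)
    obtain ⟨x1, m, hmR, hm1, hx1, hx1m⟩ := nonwand_long f hx hper ε hεpos (2 * R + M1)
    obtain ⟨y1, hy1, hy1m, hy1r⟩ := hflex m (by omega)
    obtain ⟨hsr, hn⟩ := hmem x1 y1 (hx1.le.trans hεη) hy1.le
    obtain ⟨hsr', hn'⟩ := hmem (f^[m] x1) y1 (hx1m.le.trans hεη) hy1.le
    obtain ⟨s, hs, hsS⟩ := solve (∑ j ∈ Finset.range m, φ (f^[j] x1, g^[j] y1)) hm1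
    have hs2 := hs.trans_lt (hsize m hm1 (by omega))
    have hsκ : ‖s‖ < κ := hs2.trans_le (min_le_left _ _)
    have hsε : ‖s‖ < ε₁ := hs2.trans_le (min_le_right _ _)
    have hlast : (H s)^[P * m] (Θ ((x1, y1), u)) = Θ ((f^[m] x1, y1), u) := by
      rw [horb s hsε, hsS, hy1m, add_zero]
    have hfar : ∀ i, 0 < i → i < m → ∀ v : Tor k,
        d0 ≤ dist (((f^[i] x1, g^[i] y1), v) : (X × Y) × Tor k) ((x1, y1), u) := by
      intro i hi0 him v
      rw [Prod.dist_eq, Prod.dist_eq]
      refine le_trans ?_ (le_max_left _ _)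
      show d0 ≤ max (dist (f^[i] x1) x1) (dist (g^[i] y1) y1)
      by_cases hiR : i < R
      · refine le_trans (min_le_left _ _) (le_trans ?_ (le_max_left _ _))
        have hmemi : i ∈ Finset.Ico 1 R := by rw [Finset.mem_Ico]; omega
        have h5 := hc1m i hmemi
        have h6 := (hε0' (hx1.trans_le hεε0) i hmemi).1
        have h7 : c ≤ c1 := min_le_left _ _
        have h8 := dist_triangle4 (f^[i] x) (f^[i] x1) x1 x
        rw [dist_comm (f^[i] x) (f^[i] x1)] at h8
        show c / 2 ≤ dist (f^[i] x1) x1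
        linarith
      · by_cases hiR2 : m < i + R
        · refine le_trans (min_le_left _ _) (le_trans ?_ (le_max_left _ _))
          have hmemi : m - i ∈ Finset.Ico 1 R := by rw [Finset.mem_Ico]; omega
          have h5 := hc2m (m - i) hmemi
          have h6 := (hε0' (hx1m.trans_le hεε0) (m - i) hmemi).2
          have h7 : c ≤ c2 := min_le_right _ _
          have h9 : f.symm^[m - i] (f^[m] x1) = f^[i] x1 := by
            have h10 : m = (m - i) + i := by omega
            have h11 : f^[m] x1 = f^[m - i] (f^[i] x1) := by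
              conv_lhs => rw [h10]
              exact Function.iterate_add_apply _ _ _ _
            rw [h11]
            exact (f.toEquiv.left_inv.iterate (m - i)) _
          rw [h9] at h6
          have h8 := dist_triangle4 (f.symm^[m - i] x) (f^[i] x1) x1 x
          rw [dist_comm (f.symm^[m - i] x) (f^[i] x1)] at h8
          show c / 2 ≤ dist (f^[i] x1) x1
          linarith
        · refine le_trans (min_le_right _ _) (le_trans ?_ (le_max_right _ _))
          exact hy1r i (by omega) (by omega)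
    refine hcl s (Θ ((x1, y1), u)) ρ (P * m) hsκ hsr
      (hκ' _ hn).1 hρ' hρκ (Nat.mul_pos hC.pos hm1) ?_ ?_ ?_
    · rw [hlast]
      exact hsr'
    · rw [hlast, ← dist_eq_norm]
      apply huc' ((f^[m] x1, y1), u) _ ((x1, y1), u)
      · rw [mem_closedBall, Prod.dist_eq, Prod.dist_eq, dist_self]
        exact max_le (max_le (hx1.le.trans hεη) hy1.le) hη.le
      · rw [Prod.dist_eq, Prod.dist_eq]
        simp only [dist_self]
        have h5 := dist_triangle_right (f^[m] x1) x1 x
        refine max_lt (max_lt ?_ hδ3) hδ3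
        linarith
      · rw [mem_closedBall, Prod.dist_eq, Prod.dist_eq, dist_self]
        exact max_le (max_le (hx1m.le.trans hεη) hy1.le) hη.le
    · intro i hi0 him hsrc
      have hdm := Nat.div_add_mod i P
      have hPpos : 0 < P := hC.pos
      obtain ⟨i', hi'⟩ : ∃ i' : ℕ, i' = i / P := ⟨_, rfl⟩
      obtain ⟨j, hj⟩ : ∃ j : ℕ, j = i % P := ⟨_, rfl⟩
      have hjP : j < P := by rw [hj]; exact Nat.mod_lt _ hPpos
      rw [← hi', ← hj] at hdm
      rcases Nat.eq_zero_or_pos j with hj0 | hj0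
      · rw [hj0, add_zero] at hdm
        have hi0' : 0 < i' := by
          rcases Nat.eq_zero_or_pos i' with h8 | h8
          · rw [h8, mul_zero] at hdm
            omega
          · exact h8
        have hiM' : i' < m := by
          rw [← hdm] at him
          exact lt_of_mul_lt_mul_left him hPpos.le
        rw [← hdm, horb s hsε] at hsrc ⊢
        have h5 := hsep ((x1, y1), u) _ (hfar i' hi0' hiM' _) hsr (hκ' _ hn).2.1 hsrc
        have h6 : ρ ≤ ρ1 / 2 := min_le_left _ _
        linarith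
      · have h9 : (H s)^[i] (Θ ((x1, y1), u)) ∈ D := by
          rw [← hdm, add_comm, Function.iterate_add_apply, horb s hsε, hHi s hsε _ _ j hj0 hjP.le]
          exact hDmem j hj0 hjP _
        by_contra hcon
        push Not at hcon
        have h10 : ‖χ ((H s)^[i] (Θ ((x1, y1), u)))‖ < 3 * r0 := by
          have h4 : ‖χ ((H s)^[i] (Θ ((x1, y1), u)))‖ ≤
              ‖χ ((H s)^[i] (Θ ((x1, y1), u))) - χ (Θ ((x1, y1), u))‖ + ‖χ (Θ ((x1, y1), u))‖ := by
            have := norm_add_le (χ ((H s)^[i] (Θ ((x1, y1), u))) - χ (Θ ((x1, y1), u)))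
              (χ (Θ ((x1, y1), u)))
            rwa [sub_add_cancel] at this
          have h11 := (hκ' _ hn).2.2
          linarith
        exact hr0D _ hsrc h10 h9

theorem main (hr : 1 ≤ r) (F : DiffM n N r) (z : N)
    (h : ∀ U : Set (DiffM n N r), IsOpen[strongTop n N r] U → F ∈ U →
      ∃ F' ∈ U, z ∈ closure {y | OnExt n N F' y}) :
    ClosableAt n N r F z := by
  apply closable_of_limit
  intro U hU hFU
  obtain ⟨F', hF', hz⟩ := h U hU hFU
  exact ⟨F', hF', closure_mono (fun y hy => closable_ext hr F' y hy) hz⟩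

end Pool.Agent.V11260.PE
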